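import Pool.Agent.R683.Derived

/-!
# Affine maps of order larger than half of the group order

Finite solvable groups with such a map are metabelian; in particular no finite group of derived
length exactly three has one.
-/

set_option autoImplicit false

namespace Pool.Agent.Results.MP_914128_al.Metabelian

open Pool.Agent.R683.Affine Pool.Agent.R683.Derived

universe u

/-- (1) If a finite solvable group `G` admits an affine permutation `A (x) = t α(x)` with
`ord A > |G| / 2`, then `G'' = 1`.
(2) There is no finite group of derived length exactly three that admits an affine permutation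
`A` with `ord A > |G| / 2`. -/
theorem result :
    (∀ (G : Type u) [Group G] [Finite G], Group.IsSolvable G →
      ∀ (α : MulAut G) (t : G) (A : Equiv.Perm G), (∀ x, A x = t * α x) →
        (Nat.card G : ℚ) / 2 < orderOf A → derivedSeries G 2 = ⊥) ∧
    ¬ ∃ (G : Type u) (_ : Group G) (_ : Finite G),
      derivedSeries G 3 = ⊥ ∧ derivedSeries G 2 ≠ ⊥ ∧
      ∃ (α : MulAut G) (t : G) (A : Equiv.Perm G), (∀ x, A x = t * α x) ∧
        (Nat.card G : ℚ) / 2 < orderOf A := by
  have main : ∀ (G : Type u) [Group G] [Finite G], Group.IsSolvable G →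
      ∀ (α : MulAut G) (t : G) (A : Equiv.Perm G), (∀ x, A x = t * α x) →
        (Nat.card G : ℚ) / 2 < orderOf A → derivedSeries G 2 = ⊥ := by
    intro G _ _ hs α t A hA hl
    refine metabelian _ G rfl A α (HasLin.of_formula hA) ?_
    have h1 : (Nat.card G : ℚ) < 2 * orderOf A := by linarith
    exact_mod_cast h1
  refine ⟨main, ?_⟩
  rintro ⟨G, _, _, h3, h2, α, t, A, hA, hl⟩
  exact h2 (main G ⟨3, h3⟩ α t A hA hl)

end Pool.Agent.Results.MP_914128_al.Metabelian
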